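import Pool.Agent.CXS.All
import Pool.Agent.RQM.C84

/-!
Odd constant words whose length is divisible by `13`: the last letter of a field is congruent to the
others modulo `3`, `5`, `7`, `13`, `19`, and, for some letters, `17`.
-/

set_option autoImplicit false

namespace Pool.Agent.CXS

open Function Pool.Agent.Lib_helper5 Pool.Agent.LibH4 Pool.Agent.LibH4.CFO Pool.Agent.LibH4.LO
  Pool.Agent.LibH4.CW

lemma Eqv.dvd {a N : ℕ} {e : ℕ → ℤ × ℤ × ℤ} {p : ℕ} {m B : ℤ} (h : Eqv a e N p)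
    (he : e N = (m, B, 1)) : (p : ℤ) ∣ B - a := by
  unfold Eqv at h
  rw [he] at h
  change ((B : ℤ) : ZMod p) = ((a : ℤ) : ZMod p) at h
  rw [← ZMod.intCast_zmod_eq_zero_iff_dvd]
  push_cast
  rw [h]
  push_cast
  ring

variable {m B : ℤ} {s : ℝ} {x : ℕ → ℝ} {c : ℕ → ℕ}

/-- **the structural class of a field** -/
theorem str_field (h : Data m B s x c) (hm : 0 < m) {n a : ℕ}
    (hL : minimalPeriod gsh (x 1) = 2 * (n + 1) + 1)
    [IsDomain (QuadraticAlgebra ℤ m B)] [UniqueFactorizationMonoid (QuadraticAlgebra ℤ m B)]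
    {d : ℕ} (hd : (d : ℤ) = B ^ 2 + 4 * m)
    (hin : ∀ p : ℕ, p.Prime → p ≤ 19 → ∀ X : ℤ, ¬ (p : ℤ) ∣ X ^ 2 + B * X - m)
    (hc : ∀ i, 1 ≤ i → i ≤ n + 1 → c i = a) (h13 : (2 * (n + 1) + 1) % 13 = 0) :
    (3 : ℤ) ∣ B - a ∧ (5 : ℤ) ∣ B - a ∧ (7 : ℤ) ∣ B - a ∧ (13 : ℤ) ∣ B - a ∧ (19 : ℤ) ∣ B - a ∧
      (a % 13 = 2 ∨ a % 13 = 4 ∨ a % 13 = 9 ∨ a % 13 = 11 → (17 : ℤ) ∣ B - a) := by
  have W := world_odd h hm hL hd hin hc
  have hlast : orb a (mu (qst m B c (n + 1 + 1))) (n + 1) = (m, B, 1) := by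
    rw [orb_back hc (n + 1) le_rfl, show n + 1 + 1 - (n + 1) = 1 by omega, qst_eta, QR_one h,
      QS_one h]
    rfl
  obtain ⟨e3, e5, e7, e13, e19, e17⟩ := str_all W h13
  exact ⟨by exact_mod_cast e3.dvd hlast, by exact_mod_cast e5.dvd hlast,
    by exact_mod_cast e7.dvd hlast, by exact_mod_cast e13.dvd hlast,
    by exact_mod_cast e19.dvd hlast, fun ha => by exact_mod_cast (e17 ha).dvd hlast⟩

end Pool.Agent.CXS
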