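import Pool.Agent.CXS.Kd19

/-!
Constant words, odd period length divisible by `13`: the last letter modulo `19`, kernel check, the
letters `2`, `3`.
-/

set_option maxRecDepth 100000

namespace Pool.Agent.CXS

open Pool.Agent.LibH4.Ker Pool.Agent.LibH4.CX

/-- the letters `2`, `3` -/
def V13b : List Rc := [vr (nat_lit 13) (nat_lit 2), vr (nat_lit 13) (nat_lit 3)]

theorem ck19b : allL (fun v => allL (s19 v) F19o) V13b = true := by decide +kernel

end Pool.Agent.CXS
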