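import Pool.Agent.CXS.Kd19

/-!
Constant words, odd period length divisible by `13`: the last letter modulo `19`, kernel check, the
letters `10`, `11`.
-/

set_option maxRecDepth 100000

namespace Pool.Agent.CXS

open Pool.Agent.LibH4.Ker Pool.Agent.LibH4.CX

/-- the letters `10`, `11` -/
def V13f : List Rc := [vr (nat_lit 13) (nat_lit 10), vr (nat_lit 13) (nat_lit 11)]

theorem ck19f : allL (fun v => allL (s19 v) F19o) V13f = true := by decide +kernel

end Pool.Agent.CXS
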