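import Pool.Agent.CXS.Kd

/-!
Constant words, odd period length divisible by `13`: the last letter modulo `3` and `17`, kernel checks.
-/

set_option maxRecDepth 100000

namespace Pool.Agent.CXS

open Pool.Agent.LibH4.Ker Pool.Agent.LibH4.CX

/-- all letters -/
def V13 : List Rc := [vr (nat_lit 13) (nat_lit 0), vr (nat_lit 13) (nat_lit 1), vr (nat_lit 13) (nat_lit 2), vr (nat_lit 13) (nat_lit 3), vr (nat_lit 13) (nat_lit 4), vr (nat_lit 13) (nat_lit 5),
  vr (nat_lit 13) (nat_lit 6), vr (nat_lit 13) (nat_lit 7), vr (nat_lit 13) (nat_lit 8), vr (nat_lit 13) (nat_lit 9), vr (nat_lit 13) (nat_lit 10), vr (nat_lit 13) (nat_lit 11), vr (nat_lit 13) (nat_lit 12)]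

/-- the letters `2, 4, 9, 11` -/
def V4 : List Rc := [vr (nat_lit 13) (nat_lit 2), vr (nat_lit 13) (nat_lit 4), vr (nat_lit 13) (nat_lit 9), vr (nat_lit 13) (nat_lit 11)]

theorem ck3 : allL (fun v => allL (s3 v) F3o) V13 = true := by decide +kernel

theorem ck17 : allL (fun v => allL (s17 v) F17o) V4 = true := by decide +kernel

end Pool.Agent.CXS
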