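import Pool.Agent.RQM.C12a

/-!
Universal quantification over an appended list.
-/

set_option autoImplicit false

namespace Pool.Agent.CXS

open Pool.Agent.LibH4.Ker

theorem allL_app {α : Type} (p : α → Bool) (L M : List α) (h : allL p L = true)
    (k : allL p M = true) : allL p (L ++ M) = true := by
  induction L with
  | nil => exact k
  | cons x L ih =>
    have e : ∀ N : List α, allL p (x :: N) = @Bool.rec (fun _ => Bool) false (allL p N) (p x) :=
      fun N => rfl
    rw [List.cons_append, e]
    rw [e] at h
    cases hp : p x with
    | false => rw [hp] at h; exact Bool.noConfusion h
    | true => rw [hp] at h; exact ih h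

end Pool.Agent.CXS
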