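import Pool.Agent.CXS.K19a
import Pool.Agent.CXS.K19b
import Pool.Agent.CXS.K19c
import Pool.Agent.CXS.K19d
import Pool.Agent.CXS.K19e
import Pool.Agent.CXS.K19f
import Pool.Agent.CXS.K19g
import Pool.Agent.CXS.K3
import Pool.Agent.CXS.LApp

/-!
Constant words, odd period length divisible by `13`: the last letter modulo `19`, kernel check. The
letters are checked in the seven files imported.
-/

set_option maxRecDepth 100000

namespace Pool.Agent.CXS

open Pool.Agent.LibH4.Ker Pool.Agent.LibH4.CX

theorem V13_eq : V13 = V13a ++ (V13b ++ (V13c ++ (V13d ++ (V13e ++ (V13f ++ V13g))))) := rfl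

theorem ck19 : allL (fun v => allL (s19 v) F19o) V13 = true := by
  rw [V13_eq]
  exact allL_app _ _ _ ck19a (allL_app _ _ _ ck19b (allL_app _ _ _ ck19c
    (allL_app _ _ _ ck19d (allL_app _ _ _ ck19e (allL_app _ _ _ ck19f ck19g)))))

end Pool.Agent.CXS
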