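import Pool.Agent.CXS.Sp
import Pool.Agent.CXS.K19
import Pool.Agent.CXS.K3

/-!
Constant words, odd period length divisible by `13`: the last letter modulo `3`, `5`, `7`, `13`, `17`, `19`.
-/

set_option autoImplicit false

namespace Pool.Agent.CXS

open Pool.Agent.LibH4.Ker Pool.Agent.Lib_helper5.TB Pool.Agent.LibH4.CW Pool.Agent.LibH4.CX
open Pool.Agent.LibH4

variable {a N : ℕ} {e : ℕ → ℤ × ℤ × ℤ}

theorem s19_spec (W : World false a e N) (h13 : N % 13 = 6)
    (E7 : Eqv a e N 7) (E5 : Eqv a e N 5) (hne : ¬ Eqv a e N 19) {v r19 : Rc}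
    (V : RB a e N 13 v) (T19 : RT false a e 19 r19) (h : s19 v r19 = true) : False := by
  obtain ⟨r1, m1, T1⟩ := ex1o W
  have e1 : r1 = r1o_0 := by
    unfold F1o at m1
    simpa using m1
  subst e1
  obtain ⟨r5, m5, T5⟩ := ex5o W
  obtain ⟨r7, m7, T7⟩ := ex7o W
  unfold s19 at h
  have i0 := fN_spec W T19 hne (show In N t13 from in_start13 h13)
  generalize fN r19 t13 = s0 at h i0
  have h := allL_mem (ne_spec h i0) r5 m5
  have i1 := fE_spec W T5 E5 i0
  generalize fE r5 s0 = s1 at h i1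
  have h := ne_spec h i1
  have i2 := p_95N13 W T19 T5 T1 V i1
  generalize relX false n95N13 r19 r5 r1o_0 v s1 = s2 at h i2
  have h := allL_mem (ne_spec h i2) r7 m7
  have i3 := fE_spec W T7 E7 i2
  generalize fE r7 s2 = s3 at h i3
  have h := ne_spec h i3
  have i4 := p_133N13 W T19 T7 T1 V i3
  generalize relX false n133N13 r19 r7 r1o_0 v s3 = s4 at h i4
  have h := ne_spec h i4
  have i5 := p_665N13c W T19 T7 T5 V i4
  generalize relX false n665N13c r19 r7 r5 v s4 = s5 at h i5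
  exact nilT_spec (ne_spec h i5) (p_665N13a W T19 T7 T5 V i5)

lemma mem_V13 {x : ℕ} (hx : x < 13) : vr 13 x ∈ V13 := by
  unfold V13
  interval_cases x <;> simp

lemma mem_V4 {x : ℕ} (hx : x = 2 ∨ x = 4 ∨ x = 9 ∨ x = 11) : vr 13 x ∈ V4 := by
  unfold V4
  rcases hx with rfl | rfl | rfl | rfl <;> simp

/-- **structural class**: the last letter of an odd constant word whose length is divisible by `13` is
congruent to the other letters modulo `3`, `5`, `7`, `13`, `19`, and, for some letters, `17` -/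
theorem str_all (W : World false a e N) (h13 : (2 * N + 1) % 13 = 0) :
    Eqv a e N 3 ∧ Eqv a e N 5 ∧ Eqv a e N 7 ∧ Eqv a e N 13 ∧ Eqv a e N 19 ∧
      (a % 13 = 2 ∨ a % 13 = 4 ∨ a % 13 = 9 ∨ a % 13 = 11 → Eqv a e N 17) := by
  obtain ⟨E13, E7, E5⟩ := str455 W h13
  have h6 : N % 13 = 6 := by omega
  have V : RB a e N 13 (vr 13 (a % 13)) := vr_spec (by norm_num) (by norm_num) E13 rfl
  have hV := mem_V13 (Nat.mod_lt a (show 0 < 13 by norm_num))
  have E3 : Eqv a e N 3 := by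
    by_contra hne
    obtain ⟨r3, m3, T3⟩ := ex3o W
    exact s3_spec W h6 E13 E7 E5 hne V T3 (allL_mem (allL_mem ck3 _ hV) r3 m3)
  refine ⟨E3, E5, E7, E13, ?_, ?_⟩
  · by_contra hne
    obtain ⟨r19, m19, T19⟩ := ex19o W
    exact s19_spec W h6 E7 E5 hne V T19 (allL_mem (allL_mem ck19 _ hV) r19 m19)
  · intro ha
    by_contra hne
    obtain ⟨r17, m17, T17⟩ := ex17o W
    exact s17_spec W h6 E7 E5 E3 hne V T17 (allL_mem (allL_mem ck17 _ (mem_V4 ha)) r17 m17)

end Pool.Agent.CXS
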