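import Pool.Agent.CXS.Ka
import Pool.Agent.CXS.Kb
import Pool.Agent.CXS.Kc
import Pool.Agent.CXS.LApp

/-!
Constant words, odd period length divisible by `13`: the kernel check. The records are checked in
the three files imported.
-/

set_option maxRecDepth 100000

namespace Pool.Agent.CXS

open Pool.Agent.LibH4.Ker Pool.Agent.LibH4.CX

/-- all states die -/
theorem ck : allL stS F13o = true := by
  have h := allL_app stS _ _ cka (allL_app stS _ _ ckb ckc)
  rw [List.take_append_drop, List.take_append_drop] at h
  exact h

end Pool.Agent.CXS
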