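import Pool.Agent.CXS.St
import Pool.Agent.CXS.K

/-!
Constant words, odd period length divisible by `13`: the last letter is congruent to the others modulo
`13`, `7`, `5`.
-/

set_option autoImplicit false

namespace Pool.Agent.CXS

open Pool.Agent.LibH4.Ker Pool.Agent.Lib_helper5.TB Pool.Agent.LibH4.CW Pool.Agent.LibH4.CX
open Pool.Agent.LibH4

variable {a N : ℕ} {e : ℕ → ℤ × ℤ × ℤ}

/-- **structural case**: the last letter modulo `13`, `7`, `5` -/
theorem str455 (W : World false a e N) (h13 : (2 * N + 1) % 13 = 0) :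
    (((e N).2.1 : ℤ) : ZMod 13) = ((a : ℤ) : ZMod 13) ∧
    (((e N).2.1 : ℤ) : ZMod 7) = ((a : ℤ) : ZMod 7) ∧
    (((e N).2.1 : ℤ) : ZMod 5) = ((a : ℤ) : ZMod 5) := by
  by_contra hne
  obtain ⟨r1, m1, T1⟩ := ex1o W
  obtain ⟨r13, m13, T13⟩ := ex13o W
  obtain ⟨r7, m7, T7⟩ := ex7o W
  obtain ⟨r5, m5, T5⟩ := ex5o W
  obtain ⟨r17, m17, T17⟩ := ex17o W
  obtain ⟨r8, m8, T8⟩ := ex8o W
  obtain ⟨r4, m4, T4⟩ := ex4o W
  have e1 : r1 = r1o_0 := by
    unfold F1o at m1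
    simpa using m1
  subst e1
  exact stS_spec W (by omega) hne T1 T17 m17 T13 T7 m7 T5 m5 T8 T4
    (lkO_spec W T8 T4 lk_o m8 m4) (allL_mem ck r13 m13)

end Pool.Agent.CXS
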