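import Pool.Agent.CXS.StD

/-!
Constant words, odd period length divisible by `13`: the kernel check, part 1 of the records.
-/

set_option maxRecDepth 100000

namespace Pool.Agent.CXS

open Pool.Agent.LibH4.Ker Pool.Agent.LibH4.CX

theorem cka : allL stS (F13o.take 26) = true := by decide +kernel

end Pool.Agent.CXS
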