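import Pool.Agent.RQM.C64

/-!
Constant words, odd period length divisible by `13`: the last letter is congruent to the others modulo
`13`, `7`, `5`. Kernel functions.
-/

set_option autoImplicit false

namespace Pool.Agent.CXS

open Pool.Agent.LibH4.Ker Pool.Agent.Lib_helper5.TB Pool.Agent.LibH4.CW Pool.Agent.LibH4.CX
open Pool.Agent.LibH4

/-- the last letter of the state is the other letter -/
def eqL (r : Rc) (n K : ℕ) : Bool :=
  @Bool.rec (fun _ => Bool) false (Nat.beq (by2 (d32 r.orb (Nat.mod n r.pi))) r.a)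
    (Nat.beq (Nat.mod K r.pi) (nat_lit 0))

/-- not all the last letters are the other letter -/
def nst (r13 r7 r5 : Rc) (n K : ℕ) : Bool :=
  @Bool.rec (fun _ => Bool) true
    (@Bool.rec (fun _ => Bool) true
      (@Bool.rec (fun _ => Bool) true false (eqL r13 n K)) (eqL r7 n K)) (eqL r5 n K)

/-- third stage -/
noncomputable def stS3 (r17 r13 r7 r5 : Rc) (s : Tr) : Bool :=
  allL (fun p => @Prod.rec Rc Rc (fun _ => Bool) (fun r8 r4 =>
    (fun s => ne s ((fun s => ne s ((fun s => nilT s)
      (relX false n680N13 r17 r5 r8 r13 s)))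
      (relX false n728F13 r13 r7 r8 r13 s)))
      (relX false n364F13a r13 r7 r4 r13 s)) p) F84o

/-- second stage -/
noncomputable def stS2 (r13 r7 r5 : Rc) (s : Tr) : Bool :=
  ne s (allL (fun r17 =>
    (fun s => ne s ((fun s => ne s ((fun s => ne s ((fun s => ne s ((fun s => ne s (
      stS3 r17 r13 r7 r5 s))
      (relX false n595N13b r17 r7 r5 r13 s)))
      (relX false n595N13a r17 r7 r5 r13 s)))
      (relX false n221N5 r17 r13 r1o_0 r5 s)))
      (relX false n119N5 r17 r7 r1o_0 r5 s)))
      (relX false n119N13 r17 r7 r1o_0 r13 s)) F17o)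

/-- first stage -/
noncomputable def stS (r13 : Rc) : Bool :=
  (fun s => allL (fun r7 => (fun s => ne s (allL (fun r5 =>
      (fun s => ne s ((fun s => ne s ((fun s => ne s (
        (fun s => stS2 r13 r7 r5 (filT (nst r13 r7 r5) s))
      (relX false n455F13d r13 r7 r5 r13 s)))
      (relX false n455F13c r13 r7 r5 r13 s)))
      (relX false n455F13b r13 r7 r5 r13 s)))
      (relX false n455F13a r13 r7 r5 r13 s)) F5o))
    (relX false n91F13 r13 r7 r1o_0 r13 s)) F7o)
    (lft r13.pi (Tr.st (nat_lit 6) (nat_lit 13) Tr.nil))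

end Pool.Agent.CXS
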