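import Pool.Agent.CXS.RelT
import Pool.Agent.CXS.StD

/-!
Constant words, odd period length divisible by `13`: the last letter modulo `19`, `3`, `17`.
Kernel functions.
-/

set_option autoImplicit false

namespace Pool.Agent.CXS

open Pool.Agent.LibH4.Ker Pool.Agent.Lib_helper5.TB Pool.Agent.LibH4.CW Pool.Agent.LibH4.CX
open Pool.Agent.LibH4

/-- record -/
def r3o_0 : Rc := ⟨nat_lit 3, nat_lit 0, nat_lit 1, nat_lit 2, nat_lit 2, nat_lit 72621652109754625⟩
/-- record -/
def r3o_1 : Rc := ⟨nat_lit 3, nat_lit 0, nat_lit 2, nat_lit 2, nat_lit 2, nat_lit 72340172838142210⟩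
/-- record -/
def r3o_2 : Rc := ⟨nat_lit 3, nat_lit 1, nat_lit 1, nat_lit 2, nat_lit 1, nat_lit 16843009⟩
/-- record -/
def r3o_3 : Rc := ⟨nat_lit 3, nat_lit 1, nat_lit 2, nat_lit 2, nat_lit 4, nat_lit 1329268561225520529297144524895813890⟩
/-- record -/
def r3o_4 : Rc := ⟨nat_lit 3, nat_lit 2, nat_lit 1, nat_lit 2, nat_lit 4, nat_lit 1329268561224311585030785822011490561⟩
/-- record -/
def r3o_5 : Rc := ⟨nat_lit 3, nat_lit 2, nat_lit 2, nat_lit 2, nat_lit 1, nat_lit 16908546⟩
/-- records -/
def F3o : List Rc := [r3o_0, r3o_1, r3o_2, r3o_3, r3o_4, r3o_5]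

/-- the last letter of the state is not the other letter, or unknown -/
def neqL (r : Rc) (n K : ℕ) : Bool := @Bool.rec (fun _ => Bool) true false (eqL r n K)

/-- the last letter of the state is the other letter, or unknown -/
def equL (r : Rc) (n K : ℕ) : Bool :=
  @Bool.rec (fun _ => Bool) true (Nat.beq (by2 (d32 r.orb (Nat.mod n r.pi))) r.a)
    (Nat.beq (Nat.mod K r.pi) (nat_lit 0))

/-- first states, the last letter is not the other letter -/
noncomputable def fN (r : Rc) (s : Tr) : Tr := filT (neqL r) (lft r.pi s)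

/-- first states, the last letter is the other letter -/
noncomputable def fE (r : Rc) (s : Tr) : Tr := filT (equL r) (lft r.pi s)

/-- the first state -/
def t13 : Tr := Tr.st (nat_lit 6) (nat_lit 13) Tr.nil

/-- check modulo `3` -/
noncomputable def s3 (v r3 : Rc) : Bool :=
  (fun s => ne s (allL (fun r5 => (fun s => ne s (allL (fun r7 =>
      (fun s => ne s ((fun s => ne s (allL (fun r13 =>
        @Bool.rec (fun _ => Bool) true
          ((fun s => ne s ((fun s => ne s ((fun s => ne s (allL (fun r17 =>
            (fun s => ne s ((fun s => ne s ((fun s => ne s ((fun s => ne s (nilT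
              (relX false n663F13 r17 r13 r3 r13 s)))
              (relX false n595N13b r17 r7 r5 v s)))
              (relX false n595N13a r17 r7 r5 v s)))
              (relX false n119N13 r17 r7 r1o_0 v s)))
              (relX false n357N13 r17 r7 r3 v s)) F17o))
            (relX false n273F13 r13 r7 r3 r13 s)))
            (relX false n195F13 r13 r5 r3 r13 s)))
            (fE r13 s)) (Nat.beq r13.a v.a)) F13o))
        (relX false n105N13 r7 r5 r3 v s)))
      (fE r7 s)) F7o))
    (fE r5 s)) F5o)) (fN r3 t13)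

/-- check modulo `17` -/
noncomputable def s17 (v r17 : Rc) : Bool :=
  (fun s => ne s (allL (fun r7 => (fun s => ne s ((fun s => ne s (allL (fun r5 =>
      (fun s => ne s ((fun s => ne s ((fun s => ne s (allL (fun r3 =>
        (fun s => ne s (nilT (relX false n357N13 r17 r7 r3 v s))) (fE r3 s)) F3o))
        (relX false n595N13b r17 r7 r5 v s)))
        (relX false n595N13a r17 r7 r5 v s)))
      (fE r5 s)) F5o))
      (relX false n119N13 r17 r7 r1o_0 v s)))
    (fE r7 s)) F7o)) (fN r17 t13)

end Pool.Agent.CXS
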