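import Pool.Agent.CXS.RlB
import Pool.Agent.CXS.T_665N13c

/-! generated: further relations -/

set_option maxRecDepth 100000

namespace Pool.Agent.CXS

open Pool.Agent.LibH4.Ker Pool.Agent.Lib_helper5.TB Pool.Agent.LibH4.S7 Pool.Agent.LibH4.CW
  Pool.Agent.LibH4.CX

variable {a N : ℕ} {e : ℕ → ℤ × ℤ × ℤ} {r1 r2 r3 r : Rc} {X : Tr}

/-- relation -/
def r_665N13c : RD := ⟨nat_lit 19, nat_lit 7, nat_lit 5, nat_lit 13, Pool.Agent.CXS.Tab.t1_665N13c,
  Pool.Agent.CXS.Tab.t2_665N13c, Pool.Agent.CXS.Tab.t3_665N13c, Pool.Agent.CXS.Tab.rows_665N13c, nat_lit 21, nat_lit 10⟩

lemma k_665N13c : RDOK r_665N13c :=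
  rd_of (h := 1) Pool.Agent.CXS.Tab.tok_665N13c comp19 comp7 comp5 ok19 ok7 ok5 rfl rfl rfl (by norm_num)
    (by norm_num) (by norm_num) (by norm_num) (by norm_num) (by decide +kernel)
    (by decide +kernel) (by decide +kernel) (by decide +kernel) (by decide +kernel)
    Pool.Agent.CXS.Tab.tab1_665N13c Pool.Agent.CXS.Tab.tab2_665N13c Pool.Agent.CXS.Tab.tab3_665N13c
    Pool.Agent.CXS.Tab.red1_665N13c Pool.Agent.CXS.Tab.red2_665N13c Pool.Agent.CXS.Tab.red3_665N13c Pool.Agent.CXS.Tab.rok_665N13c
    (ad_prime (by norm_num) (by norm_num) (by decide))
    (ad_prime (by norm_num) (by norm_num) (by decide))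
    (ad_prime (by norm_num) (by norm_num) (by decide))
    (by decide +kernel) (by decide +kernel) (by decide +kernel) (by decide +kernel)
    (by decide +kernel) (by decide +kernel)

/-- relation -/
def n665N13c : RN := ⟨(nat_lit 13), Pool.Agent.CXS.Tab.t1_665N13c, Pool.Agent.CXS.Tab.t2_665N13c, Pool.Agent.CXS.Tab.t3_665N13c, (nat_lit 10), (nat_lit 1680), (nat_lit 53751763281617910977034964721174741663008655940159144344713614863023080529278140407534961311242814229395876005424258737427374269437649287838907097277355371953699677593812086481959272740614049029887514406997074265172418391397657360248197162683969074191332475296524902658098222332595908741751391477587362636344728828453617536494627356792601450307397806688631445746074774556850081722840606116959452930981773324385740577251592339045231114992186734509188416434115341010544191353505352737718761080737479237042176),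
  cat (nat_lit 53751763281617910977034964721174741663008655940159144344713614863023080529278140407534961311242814229395876005424258737427374269437649287838907097277355371953699677593812086481959272740614049029887514406997074265172418391397657360248197162683969074191332475296524902658098222332595908741751391477587362636344728828453617536494627356792601450307397806688631445746074774556850081722840606116959452930981773324385740577251592339045231114992186734509188416434115341010544191353505352737718761080737479237042176) (fun x => x.1) Pool.Agent.CXS.Tab.rows_665N13c,
  cat (nat_lit 53751763281617910977034964721174741663008655940159144344713614863023080529278140407534961311242814229395876005424258737427374269437649287838907097277355371953699677593812086481959272740614049029887514406997074265172418391397657360248197162683969074191332475296524902658098222332595908741751391477587362636344728828453617536494627356792601450307397806688631445746074774556850081722840606116959452930981773324385740577251592339045231114992186734509188416434115341010544191353505352737718761080737479237042176) (fun x => x.2) Pool.Agent.CXS.Tab.rows_665N13c, (nat_lit 80), (nat_lit 308276084001730439550075135),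 (nat_lit 160), (nat_lit 1208925819614629174706175)⟩

lemma sd_665N13c : SD n665N13c r_665N13c :=
  ⟨k_665N13c, rfl, rfl, rfl, rfl, rfl, by decide +kernel, by decide +kernel, rfl, rfl,
    by decide +kernel, by decide +kernel, by decide +kernel, by decide +kernel, by decide +kernel⟩

lemma sm_665N13c : SM n665N13c r_665N13c 31 :=
  sm8 sd_665N13c (by decide +kernel) (by decide +kernel) (by decide +kernel)
    (by decide +kernel) (by decide +kernel) (by decide +kernel)

lemma p_665N13c (W : World false a e N) (T1 : RT false a e 19 r1) (T2 : RT false a e 7 r2)
    (T3 : RT false a e 5 r3) (T : RB a e N 13 r) (h : In N X) :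
    In N (relX false n665N13c r1 r2 r3 r X) :=
  relY_spec W sd_665N13c sm_665N13c le_rfl (show Nat.Prime 13 by norm_num) T1 T2 T3 T h

end Pool.Agent.CXS
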