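import Pool.Agent.CXS.Kd
import Pool.Agent.CXS.RelU

/-!
Constant words, odd period length divisible by `13`: the last letter modulo `19`.
Kernel functions.
-/

set_option autoImplicit false

namespace Pool.Agent.CXS

open Pool.Agent.LibH4.Ker Pool.Agent.Lib_helper5.TB Pool.Agent.LibH4.CW Pool.Agent.LibH4.CX
open Pool.Agent.LibH4

/-- check modulo `19` -/
noncomputable def s19 (v r19 : Rc) : Bool :=
  (fun s => ne s (allL (fun r5 => (fun s => ne s ((fun s => ne s (allL (fun r7 =>
      (fun s => ne s ((fun s => ne s ((fun s => ne s (nilT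
        (relX false n665N13a r19 r7 r5 v s)))
        (relX false n665N13c r19 r7 r5 v s)))
        (relX false n133N13 r19 r7 r1o_0 v s)))
      (fE r7 s)) F7o))
      (relX false n95N13 r19 r5 r1o_0 v s)))
    (fE r5 s)) F5o)) (fN r19 t13)

end Pool.Agent.CXS
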