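import Pool.Agent.CXS.RlB

/-! generated: soundness of the relations, weak records -/

namespace Pool.Agent.CXS

open Pool.Agent.LibH4.CW Pool.Agent.LibH4.CX

variable {a N : ℕ} {e : ℕ → ℤ × ℤ × ℤ} {r1 r2 r3 r : Rc} {X : Tr}

lemma p_95N13 (W : World false a e N) (T1 : RT false a e 19 r1) (T2 : RT false a e 5 r2)
    (T3 : RT false a e 1 r3) (T : RB a e N 13 r) (h : In N X) :
    In N (relX false n95N13 r1 r2 r3 r X) :=
  relY_spec W sd_95N13 sm_95N13 le_rfl (show Nat.Prime 13 by norm_num) T1 T2 T3 T h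

lemma p_133N13 (W : World false a e N) (T1 : RT false a e 19 r1) (T2 : RT false a e 7 r2)
    (T3 : RT false a e 1 r3) (T : RB a e N 13 r) (h : In N X) :
    In N (relX false n133N13 r1 r2 r3 r X) :=
  relY_spec W sd_133N13 sm_133N13 le_rfl (show Nat.Prime 13 by norm_num) T1 T2 T3 T h

lemma p_119N13 (W : World false a e N) (T1 : RT false a e 17 r1) (T2 : RT false a e 7 r2)
    (T3 : RT false a e 1 r3) (T : RB a e N 13 r) (h : In N X) :
    In N (relX false n119N13 r1 r2 r3 r X) :=
  relY_spec W sd_119N13 sm_119N13 le_rfl (show Nat.Prime 13 by norm_num) T1 T2 T3 T h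

lemma p_595N13a (W : World false a e N) (T1 : RT false a e 17 r1) (T2 : RT false a e 7 r2)
    (T3 : RT false a e 5 r3) (T : RB a e N 13 r) (h : In N X) :
    In N (relX false n595N13a r1 r2 r3 r X) :=
  relY_spec W sd_595N13a sm_595N13a le_rfl (show Nat.Prime 13 by norm_num) T1 T2 T3 T h

lemma p_595N13b (W : World false a e N) (T1 : RT false a e 17 r1) (T2 : RT false a e 7 r2)
    (T3 : RT false a e 5 r3) (T : RB a e N 13 r) (h : In N X) :
    In N (relX false n595N13b r1 r2 r3 r X) :=
  relY_spec W sd_595N13b sm_595N13b le_rfl (show Nat.Prime 13 by norm_num) T1 T2 T3 T h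

end Pool.Agent.CXS
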