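import Pool.Agent.CXS.RlB
import Pool.Agent.OEG.X665N13a
import Pool.Agent.PSX.T_105N13
import Pool.Agent.PSX.T_195F13
import Pool.Agent.PSX.T_273F13
import Pool.Agent.PSX.T_357N13
import Pool.Agent.PSX.T_663F13

/-! generated: further relations -/

set_option maxRecDepth 100000

namespace Pool.Agent.CXS

open Pool.Agent.LibH4.Ker Pool.Agent.Lib_helper5.TB Pool.Agent.LibH4.S7 Pool.Agent.LibH4.CW
  Pool.Agent.LibH4.CX

variable {a N : ℕ} {e : ℕ → ℤ × ℤ × ℤ} {r1 r2 r3 r : Rc} {X : Tr}

/-- relation -/
def r_105N13 : RD := ⟨nat_lit 7, nat_lit 5, nat_lit 3, nat_lit 13, Pool.Agent.PSX.EL.t1_105N13,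
  Pool.Agent.PSX.EL.t2_105N13, Pool.Agent.PSX.EL.t3_105N13, Pool.Agent.PSX.EL.rows_105N13, nat_lit 10, nat_lit 3⟩

lemma k_105N13 : RDOK r_105N13 :=
  rd_of (h := 1) Pool.Agent.PSX.EL.tok_105N13 comp7 comp5 comp3 ok7 ok5 ok3 rfl rfl rfl (by norm_num)
    (by norm_num) (by norm_num) (by norm_num) (by norm_num) (by decide +kernel)
    (by decide +kernel) (by decide +kernel) (by decide +kernel) (by decide +kernel)
    Pool.Agent.PSX.EL.tab1_105N13 Pool.Agent.PSX.EL.tab2_105N13 Pool.Agent.PSX.EL.tab3_105N13
    Pool.Agent.PSX.EL.red1_105N13 Pool.Agent.PSX.EL.red2_105N13 Pool.Agent.PSX.EL.red3_105N13 Pool.Agent.PSX.EL.rok_105N13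
    (ad_prime (by norm_num) (by norm_num) (by decide))
    (ad_prime (by norm_num) (by norm_num) (by decide))
    (ad_prime (by norm_num) (by norm_num) (by decide))
    (by decide +kernel) (by decide +kernel) (by decide +kernel) (by decide +kernel)
    (by decide +kernel) (by decide +kernel)

/-- relation -/
def n105N13 : RN := ⟨(nat_lit 13), Pool.Agent.PSX.EL.t1_105N13, Pool.Agent.PSX.EL.t2_105N13, Pool.Agent.PSX.EL.t3_105N13, (nat_lit 3), (nat_lit 240), (nat_lit 1766847064778384329583297500742918515827483896875618958121606201292619776),
  cat (nat_lit 1766847064778384329583297500742918515827483896875618958121606201292619776) (fun x => x.1) Pool.Agent.PSX.EL.rows_105N13,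
  cat (nat_lit 1766847064778384329583297500742918515827483896875618958121606201292619776) (fun x => x.2) Pool.Agent.PSX.EL.rows_105N13, (nat_lit 32), (nat_lit 1095216660735), (nat_lit 64), (nat_lit 4294967295)⟩

lemma sd_105N13 : SD n105N13 r_105N13 :=
  ⟨k_105N13, rfl, rfl, rfl, rfl, rfl, by decide +kernel, by decide +kernel, rfl, rfl,
    by decide +kernel, by decide +kernel, by decide +kernel, by decide +kernel, by decide +kernel⟩

lemma sm_105N13 : SM n105N13 r_105N13 31 :=
  sm8 sd_105N13 (by decide +kernel) (by decide +kernel) (by decide +kernel)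
    (by decide +kernel) (by decide +kernel) (by decide +kernel)

lemma p_105N13 (W : World false a e N) (T1 : RT false a e 7 r1) (T2 : RT false a e 5 r2)
    (T3 : RT false a e 3 r3) (T : RB a e N 13 r) (h : In N X) :
    In N (relX false n105N13 r1 r2 r3 r X) :=
  relY_spec W sd_105N13 sm_105N13 le_rfl (show Nat.Prime 13 by norm_num) T1 T2 T3 T h

/-- relation -/
def r_195F13 : RD := ⟨nat_lit 13, nat_lit 5, nat_lit 3, nat_lit 13, Pool.Agent.PSX.EL.t1_195F13,
  Pool.Agent.PSX.EL.t2_195F13, Pool.Agent.PSX.EL.t3_195F13, Pool.Agent.PSX.EL.rows_195F13, nat_lit 10, nat_lit 3⟩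

lemma k_195F13 : RDOK r_195F13 :=
  rd_of (h := 169) Pool.Agent.PSX.EL.tok_195F13 comp13 comp5 comp3 ok13 ok5 ok3 rfl rfl rfl (by norm_num)
    (by norm_num) (by norm_num) (by norm_num) (by norm_num) (by decide +kernel)
    (by decide +kernel) (by decide +kernel) (by decide +kernel) (by decide +kernel)
    Pool.Agent.PSX.EL.tab1_195F13 Pool.Agent.PSX.EL.tab2_195F13 Pool.Agent.PSX.EL.tab3_195F13
    Pool.Agent.PSX.EL.red1_195F13 Pool.Agent.PSX.EL.red2_195F13 Pool.Agent.PSX.EL.red3_195F13 Pool.Agent.PSX.EL.rok_195F13
    (ad_prime (by norm_num) (by norm_num) (by decide))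
    (ad_prime (by norm_num) (by norm_num) (by decide))
    (ad_prime (by norm_num) (by norm_num) (by decide))
    (by decide +kernel) (by decide +kernel) (by decide +kernel) (by decide +kernel)
    (by decide +kernel) (by decide +kernel)

/-- relation -/
def n195F13 : RN := ⟨(nat_lit 13), Pool.Agent.PSX.EL.t1_195F13, Pool.Agent.PSX.EL.t2_195F13, Pool.Agent.PSX.EL.t3_195F13, (nat_lit 3), (nat_lit 240), (nat_lit 1766847064778384329583297500742918515827483896875618958121606201292619776),
  cat (nat_lit 1766847064778384329583297500742918515827483896875618958121606201292619776) (fun x => x.1) Pool.Agent.PSX.EL.rows_195F13,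
  cat (nat_lit 1766847064778384329583297500742918515827483896875618958121606201292619776) (fun x => x.2) Pool.Agent.PSX.EL.rows_195F13, (nat_lit 32), (nat_lit 1095216660735), (nat_lit 64), (nat_lit 4294967295)⟩

lemma sd_195F13 : SD n195F13 r_195F13 :=
  ⟨k_195F13, rfl, rfl, rfl, rfl, rfl, by decide +kernel, by decide +kernel, rfl, rfl,
    by decide +kernel, by decide +kernel, by decide +kernel, by decide +kernel, by decide +kernel⟩

lemma sm_195F13 : SM n195F13 r_195F13 31 :=
  sm8 sd_195F13 (by decide +kernel) (by decide +kernel) (by decide +kernel)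
    (by decide +kernel) (by decide +kernel) (by decide +kernel)

lemma p_195F13 (W : World false a e N) (T1 : RT false a e 13 r1) (T2 : RT false a e 5 r2)
    (T3 : RT false a e 3 r3) (T : RB a e N 13 r) (h : In N X) :
    In N (relX false n195F13 r1 r2 r3 r X) :=
  relY_spec W sd_195F13 sm_195F13 le_rfl (show Nat.Prime 13 by norm_num) T1 T2 T3 T h

/-- relation -/
def r_273F13 : RD := ⟨nat_lit 13, nat_lit 7, nat_lit 3, nat_lit 13, Pool.Agent.PSX.EL.t1_273F13,
  Pool.Agent.PSX.EL.t2_273F13, Pool.Agent.PSX.EL.t3_273F13, Pool.Agent.PSX.EL.rows_273F13, nat_lit 21, nat_lit 3⟩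

lemma k_273F13 : RDOK r_273F13 :=
  rd_of (h := 169) Pool.Agent.PSX.EL.tok_273F13 comp13 comp7 comp3 ok13 ok7 ok3 rfl rfl rfl (by norm_num)
    (by norm_num) (by norm_num) (by norm_num) (by norm_num) (by decide +kernel)
    (by decide +kernel) (by decide +kernel) (by decide +kernel) (by decide +kernel)
    Pool.Agent.PSX.EL.tab1_273F13 Pool.Agent.PSX.EL.tab2_273F13 Pool.Agent.PSX.EL.tab3_273F13
    Pool.Agent.PSX.EL.red1_273F13 Pool.Agent.PSX.EL.red2_273F13 Pool.Agent.PSX.EL.red3_273F13 Pool.Agent.PSX.EL.rok_273F13
    (ad_prime (by norm_num) (by norm_num) (by decide))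
    (ad_prime (by norm_num) (by norm_num) (by decide))
    (ad_prime (by norm_num) (by norm_num) (by decide))
    (by decide +kernel) (by decide +kernel) (by decide +kernel) (by decide +kernel)
    (by decide +kernel) (by decide +kernel)

/-- relation -/
def n273F13 : RN := ⟨(nat_lit 13), Pool.Agent.PSX.EL.t1_273F13, Pool.Agent.PSX.EL.t2_273F13, Pool.Agent.PSX.EL.t3_273F13, (nat_lit 3), (nat_lit 504), (nat_lit 52374249726338269920211035149241586435466272736689036631732661889538140742474792878132321477214466514414186946040961136147476104734166288853256441430016),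
  cat (nat_lit 52374249726338269920211035149241586435466272736689036631732661889538140742474792878132321477214466514414186946040961136147476104734166288853256441430016) (fun x => x.1) Pool.Agent.PSX.EL.rows_273F13,
  cat (nat_lit 52374249726338269920211035149241586435466272736689036631732661889538140742474792878132321477214466514414186946040961136147476104734166288853256441430016) (fun x => x.2) Pool.Agent.PSX.EL.rows_273F13, (nat_lit 32), (nat_lit 1095216660735), (nat_lit 64), (nat_lit 4294967295)⟩

lemma sd_273F13 : SD n273F13 r_273F13 :=
  ⟨k_273F13, rfl, rfl, rfl, rfl, rfl, by decide +kernel, by decide +kernel, rfl, rfl,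
    by decide +kernel, by decide +kernel, by decide +kernel, by decide +kernel, by decide +kernel⟩

lemma sm_273F13 : SM n273F13 r_273F13 31 :=
  sm8 sd_273F13 (by decide +kernel) (by decide +kernel) (by decide +kernel)
    (by decide +kernel) (by decide +kernel) (by decide +kernel)

lemma p_273F13 (W : World false a e N) (T1 : RT false a e 13 r1) (T2 : RT false a e 7 r2)
    (T3 : RT false a e 3 r3) (T : RB a e N 13 r) (h : In N X) :
    In N (relX false n273F13 r1 r2 r3 r X) :=
  relY_spec W sd_273F13 sm_273F13 le_rfl (show Nat.Prime 13 by norm_num) T1 T2 T3 T h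

/-- relation -/
def r_357N13 : RD := ⟨nat_lit 17, nat_lit 7, nat_lit 3, nat_lit 13, Pool.Agent.PSX.EL.t1_357N13,
  Pool.Agent.PSX.EL.t2_357N13, Pool.Agent.PSX.EL.t3_357N13, Pool.Agent.PSX.EL.rows_357N13, nat_lit 21, nat_lit 3⟩

lemma k_357N13 : RDOK r_357N13 :=
  rd_of (h := 1) Pool.Agent.PSX.EL.tok_357N13 comp17 comp7 comp3 ok17 ok7 ok3 rfl rfl rfl (by norm_num)
    (by norm_num) (by norm_num) (by norm_num) (by norm_num) (by decide +kernel)
    (by decide +kernel) (by decide +kernel) (by decide +kernel) (by decide +kernel)
    Pool.Agent.PSX.EL.tab1_357N13 Pool.Agent.PSX.EL.tab2_357N13 Pool.Agent.PSX.EL.tab3_357N13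
    Pool.Agent.PSX.EL.red1_357N13 Pool.Agent.PSX.EL.red2_357N13 Pool.Agent.PSX.EL.red3_357N13 Pool.Agent.PSX.EL.rok_357N13
    (ad_prime (by norm_num) (by norm_num) (by decide))
    (ad_prime (by norm_num) (by norm_num) (by decide))
    (ad_prime (by norm_num) (by norm_num) (by decide))
    (by decide +kernel) (by decide +kernel) (by decide +kernel) (by decide +kernel)
    (by decide +kernel) (by decide +kernel)

/-- relation -/
def n357N13 : RN := ⟨(nat_lit 13), Pool.Agent.PSX.EL.t1_357N13, Pool.Agent.PSX.EL.t2_357N13, Pool.Agent.PSX.EL.t3_357N13, (nat_lit 3), (nat_lit 504), (nat_lit 52374249726338269920211035149241586435466272736689036631732661889538140742474792878132321477214466514414186946040961136147476104734166288853256441430016),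
  cat (nat_lit 52374249726338269920211035149241586435466272736689036631732661889538140742474792878132321477214466514414186946040961136147476104734166288853256441430016) (fun x => x.1) Pool.Agent.PSX.EL.rows_357N13,
  cat (nat_lit 52374249726338269920211035149241586435466272736689036631732661889538140742474792878132321477214466514414186946040961136147476104734166288853256441430016) (fun x => x.2) Pool.Agent.PSX.EL.rows_357N13, (nat_lit 32), (nat_lit 1095216660735), (nat_lit 64), (nat_lit 4294967295)⟩

lemma sd_357N13 : SD n357N13 r_357N13 :=
  ⟨k_357N13, rfl, rfl, rfl, rfl, rfl, by decide +kernel, by decide +kernel, rfl, rfl,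
    by decide +kernel, by decide +kernel, by decide +kernel, by decide +kernel, by decide +kernel⟩

lemma sm_357N13 : SM n357N13 r_357N13 31 :=
  sm8 sd_357N13 (by decide +kernel) (by decide +kernel) (by decide +kernel)
    (by decide +kernel) (by decide +kernel) (by decide +kernel)

lemma p_357N13 (W : World false a e N) (T1 : RT false a e 17 r1) (T2 : RT false a e 7 r2)
    (T3 : RT false a e 3 r3) (T : RB a e N 13 r) (h : In N X) :
    In N (relX false n357N13 r1 r2 r3 r X) :=
  relY_spec W sd_357N13 sm_357N13 le_rfl (show Nat.Prime 13 by norm_num) T1 T2 T3 T h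

/-- relation -/
def r_663F13 : RD := ⟨nat_lit 17, nat_lit 13, nat_lit 3, nat_lit 13, Pool.Agent.PSX.EL.t1_663F13,
  Pool.Agent.PSX.EL.t2_663F13, Pool.Agent.PSX.EL.t3_663F13, Pool.Agent.PSX.EL.rows_663F13, nat_lit 78, nat_lit 3⟩

lemma k_663F13 : RDOK r_663F13 :=
  rd_of (h := 169) Pool.Agent.PSX.EL.tok_663F13 comp17 comp13 comp3 ok17 ok13 ok3 rfl rfl rfl (by norm_num)
    (by norm_num) (by norm_num) (by norm_num) (by norm_num) (by decide +kernel)
    (by decide +kernel) (by decide +kernel) (by decide +kernel) (by decide +kernel)
    Pool.Agent.PSX.EL.tab1_663F13 Pool.Agent.PSX.EL.tab2_663F13 Pool.Agent.PSX.EL.tab3_663F13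
    Pool.Agent.PSX.EL.red1_663F13 Pool.Agent.PSX.EL.red2_663F13 Pool.Agent.PSX.EL.red3_663F13 Pool.Agent.PSX.EL.rok_663F13
    (ad_prime (by norm_num) (by norm_num) (by decide))
    (ad_prime (by norm_num) (by norm_num) (by decide))
    (ad_prime (by norm_num) (by norm_num) (by decide))
    (by decide +kernel) (by decide +kernel) (by decide +kernel) (by decide +kernel)
    (by decide +kernel) (by decide +kernel)

/-- relation -/
def n663F13 : RN := ⟨(nat_lit 13), Pool.Agent.PSX.EL.t1_663F13, Pool.Agent.PSX.EL.t2_663F13, Pool.Agent.PSX.EL.t3_663F13, (nat_lit 3), (nat_lit 1872), (nat_lit 337405286575137855484278275127554174128947546175130571351988906523136671064463719016777742639309796204020659787616338218829095213451050196603919454510103044515956094743217611332209226644486063210793991135358537939046147642522013262909566527676680575237175942052698079958956103818423340583589729246906713846784564116680625702532320229317307363664219812969972668767963776858340065890635344765426292093028972390060646797708535146154698689789210465689199079311552496253846794406101954746492523886393186565184244541771571364911178093060201009850067877417923859967901696),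
  cat (nat_lit 337405286575137855484278275127554174128947546175130571351988906523136671064463719016777742639309796204020659787616338218829095213451050196603919454510103044515956094743217611332209226644486063210793991135358537939046147642522013262909566527676680575237175942052698079958956103818423340583589729246906713846784564116680625702532320229317307363664219812969972668767963776858340065890635344765426292093028972390060646797708535146154698689789210465689199079311552496253846794406101954746492523886393186565184244541771571364911178093060201009850067877417923859967901696) (fun x => x.1) Pool.Agent.PSX.EL.rows_663F13,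
  cat (nat_lit 337405286575137855484278275127554174128947546175130571351988906523136671064463719016777742639309796204020659787616338218829095213451050196603919454510103044515956094743217611332209226644486063210793991135358537939046147642522013262909566527676680575237175942052698079958956103818423340583589729246906713846784564116680625702532320229317307363664219812969972668767963776858340065890635344765426292093028972390060646797708535146154698689789210465689199079311552496253846794406101954746492523886393186565184244541771571364911178093060201009850067877417923859967901696) (fun x => x.2) Pool.Agent.PSX.EL.rows_663F13, (nat_lit 32), (nat_lit 1095216660735), (nat_lit 64), (nat_lit 4294967295)⟩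

lemma sd_663F13 : SD n663F13 r_663F13 :=
  ⟨k_663F13, rfl, rfl, rfl, rfl, rfl, by decide +kernel, by decide +kernel, rfl, rfl,
    by decide +kernel, by decide +kernel, by decide +kernel, by decide +kernel, by decide +kernel⟩

lemma sm_663F13 : SM n663F13 r_663F13 31 :=
  sm8 sd_663F13 (by decide +kernel) (by decide +kernel) (by decide +kernel)
    (by decide +kernel) (by decide +kernel) (by decide +kernel)

lemma p_663F13 (W : World false a e N) (T1 : RT false a e 17 r1) (T2 : RT false a e 13 r2)
    (T3 : RT false a e 3 r3) (T : RB a e N 13 r) (h : In N X) :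
    In N (relX false n663F13 r1 r2 r3 r X) :=
  relY_spec W sd_663F13 sm_663F13 le_rfl (show Nat.Prime 13 by norm_num) T1 T2 T3 T h

/-- relation -/
def r_665N13a : RD := ⟨nat_lit 19, nat_lit 7, nat_lit 5, nat_lit 13, Pool.Agent.PSX.Ev.t1_665N13a,
  Pool.Agent.PSX.Ev.t2_665N13a, Pool.Agent.PSX.Ev.t3_665N13a, Pool.Agent.PSX.Ev.rows_665N13a, nat_lit 21, nat_lit 10⟩

lemma k_665N13a : RDOK r_665N13a :=
  rd_of (h := 1) Pool.Agent.PSX.Ev.tok_665N13a comp19 comp7 comp5 ok19 ok7 ok5 rfl rfl rfl (by norm_num)
    (by norm_num) (by norm_num) (by norm_num) (by norm_num) (by decide +kernel)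
    (by decide +kernel) (by decide +kernel) (by decide +kernel) (by decide +kernel)
    Pool.Agent.PSX.Ev.tab1_665N13a Pool.Agent.PSX.Ev.tab2_665N13a Pool.Agent.PSX.Ev.tab3_665N13a
    Pool.Agent.PSX.Ev.red1_665N13a Pool.Agent.PSX.Ev.red2_665N13a Pool.Agent.PSX.Ev.red3_665N13a Pool.Agent.PSX.Ev.rok_665N13a
    (ad_prime (by norm_num) (by norm_num) (by decide))
    (ad_prime (by norm_num) (by norm_num) (by decide))
    (ad_prime (by norm_num) (by norm_num) (by decide))
    (by decide +kernel) (by decide +kernel) (by decide +kernel) (by decide +kernel)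
    (by decide +kernel) (by decide +kernel)

/-- relation -/
def n665N13a : RN := ⟨(nat_lit 13), Pool.Agent.PSX.Ev.t1_665N13a, Pool.Agent.PSX.Ev.t2_665N13a, Pool.Agent.PSX.Ev.t3_665N13a, (nat_lit 10), (nat_lit 1680), (nat_lit 53751763281617910977034964721174741663008655940159144344713614863023080529278140407534961311242814229395876005424258737427374269437649287838907097277355371953699677593812086481959272740614049029887514406997074265172418391397657360248197162683969074191332475296524902658098222332595908741751391477587362636344728828453617536494627356792601450307397806688631445746074774556850081722840606116959452930981773324385740577251592339045231114992186734509188416434115341010544191353505352737718761080737479237042176),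
  cat (nat_lit 53751763281617910977034964721174741663008655940159144344713614863023080529278140407534961311242814229395876005424258737427374269437649287838907097277355371953699677593812086481959272740614049029887514406997074265172418391397657360248197162683969074191332475296524902658098222332595908741751391477587362636344728828453617536494627356792601450307397806688631445746074774556850081722840606116959452930981773324385740577251592339045231114992186734509188416434115341010544191353505352737718761080737479237042176) (fun x => x.1) Pool.Agent.PSX.Ev.rows_665N13a,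
  cat (nat_lit 53751763281617910977034964721174741663008655940159144344713614863023080529278140407534961311242814229395876005424258737427374269437649287838907097277355371953699677593812086481959272740614049029887514406997074265172418391397657360248197162683969074191332475296524902658098222332595908741751391477587362636344728828453617536494627356792601450307397806688631445746074774556850081722840606116959452930981773324385740577251592339045231114992186734509188416434115341010544191353505352737718761080737479237042176) (fun x => x.2) Pool.Agent.PSX.Ev.rows_665N13a, (nat_lit 80), (nat_lit 308276084001730439550075135), (nat_lit 160), (nat_lit 1208925819614629174706175)⟩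

lemma sd_665N13a : SD n665N13a r_665N13a :=
  ⟨k_665N13a, rfl, rfl, rfl, rfl, rfl, by decide +kernel, by decide +kernel, rfl, rfl,
    by decide +kernel, by decide +kernel, by decide +kernel, by decide +kernel, by decide +kernel⟩

lemma sm_665N13a : SM n665N13a r_665N13a 31 :=
  sm8 sd_665N13a (by decide +kernel) (by decide +kernel) (by decide +kernel)
    (by decide +kernel) (by decide +kernel) (by decide +kernel)

lemma p_665N13a (W : World false a e N) (T1 : RT false a e 19 r1) (T2 : RT false a e 7 r2)
    (T3 : RT false a e 5 r3) (T : RB a e N 13 r) (h : In N X) :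
    In N (relX false n665N13a r1 r2 r3 r X) :=
  relY_spec W sd_665N13a sm_665N13a le_rfl (show Nat.Prime 13 by norm_num) T1 T2 T3 T h

end Pool.Agent.CXS
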