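import Pool.Agent.RQM.C68
import Pool.Agent.RQM.C69

/-!
Constant words: soundness of a relation, with a weak record of the modulus of the values (only the
letter and the last letter are known).
-/

namespace Pool.Agent.CXS

open Finset Pool.Agent.Lib_helper5 Pool.Agent.Lib_helper5.LK Pool.Agent.LibH4.Ker
  Pool.Agent.LibH4.KF Pool.Agent.LibH4.T6 Pool.Agent.Lib_helper5.TB Pool.Agent.LibH4.S7
  Pool.Agent.LibH4.CW Pool.Agent.LibH4.CX
open Pool.Agent.LibH4

/-- a weak record -/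
structure RB (a : ℕ) (e : ℕ → ℤ × ℤ × ℤ) (N l : ℕ) (r : Rc) : Prop where
  la : r.a = a % l
  lt : by2 (d32 r.orb (N % r.pi)) < l
  eq : ((by2 (d32 r.orb (N % r.pi)) : ℕ) : ZMod l) = (((e N).2.1 : ℤ) : ZMod l)

section

variable {par : Bool} {a N : ℕ} {e : ℕ → ℤ × ℤ × ℤ} {s : RN} {rd : RD} {r1 r2 r3 r : Rc}

lemma RB.of {n : ℕ} (W : World par a e N) (T : RT par a e n r) : RB a e N n r where
  la := T.la
  lt := by rw [T.e2 N]; exact Nat.mod_lt _ T.pos
  eq := by
    have h := (T.ts.last W T.ok).1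
    rw [T.cn] at h
    rw [T.e2 N]
    exact h

/-- the record of a letter, when the last letter is congruent to the others -/
def vr (n a : ℕ) : Rc := ⟨n, a, nat_lit 0, nat_lit 0, nat_lit 1, Nat.mul a (nat_lit 65536)⟩

lemma vr_by2 {n x : ℕ} (hx : x < 256) (N : ℕ) :
    by2 (d32 (vr n x).orb (N % (vr n x).pi)) = x := by
  have h1 : N % (vr n x).pi = 0 := Nat.mod_one N
  rw [h1]
  change (((x * 65536) >>> (32 * 0)) % 4294967296) >>> 16 % 256 = x
  rw [mul_zero, Nat.shiftRight_zero, Nat.mod_eq_of_lt (by omega), Nat.shiftRight_eq_div_pow]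
  norm_num
  omega

lemma vr_spec {n : ℕ} (hn : 0 < n) (h256 : n ≤ 256)
    (h : (((e N).2.1 : ℤ) : ZMod n) = ((a : ℤ) : ZMod n)) {x : ℕ} (hx : a % n = x) :
    RB a e N n (vr n x) := by
  have hlt : x < n := by rw [← hx]; exact Nat.mod_lt _ hn
  have h2 := vr_by2 (n := n) (x := x) (by omega) N
  refine ⟨hx.symm, ?_, ?_⟩
  · rw [h2]; exact hlt
  · rw [h2, h, ← hx, ZMod.natCast_mod]
    push_cast
    rfl

/-- **soundness of a relation**, weak record of the modulus of the values -/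
theorem relY_spec (W : World par a e N) (hs' : SD s rd) {Bs : ℕ} (hm : SM s rd Bs)
    (hBs : Bs ≤ 31) (hl : rd.l.Prime) (T1 : RT par a e rd.n1 r1)
    (T2 : RT par a e rd.n2 r2) (T3 : RT par a e rd.n3 r3) (T : RB a e N rd.l r) {st : Tr}
    (h : In N st) : In N (relX par s r1 r2 r3 r st) := by
  have e0 : relX par s r1 r2 r3 r st = (fun L => @Bool.rec (fun _ => Tr) st
      (relQ par s.l s.F s.w2 s.mF L (strS s r1 r2 r3 L) r.a r.orb r.pi st)
      (Nat.ble L 1000)) (lcmS (lcmS r1.pi r2.pi) r3.pi) := by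
    unfold relX
    rw [strict_eq]
  rw [e0]
  set L := lcmS (lcmS r1.pi r2.pi) r3.pi with hL
  rw [lcmS_eq, lcmS_eq] at hL
  have hLpos : 0 < L := by
    rw [hL]; exact Nat.lcm_pos (Nat.lcm_pos T1.pi T2.pi) T3.pi
  have d1 : r1.pi ∣ L := by rw [hL]; exact (Nat.dvd_lcm_left _ _).trans (Nat.dvd_lcm_left _ _)
  have d2 : r2.pi ∣ L := by rw [hL]; exact (Nat.dvd_lcm_right _ _).trans (Nat.dvd_lcm_left _ _)
  have d3 : r3.pi ∣ L := by rw [hL]; exact Nat.dvd_lcm_right _ _
  clear_value L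
  change In N (@Bool.rec (fun _ => Tr) st
      (relQ par s.l s.F s.w2 s.mF L (strS s r1 r2 r3 L) r.a r.orb r.pi st)
      (Nat.ble L 1000))
  cases hb : Nat.ble L 1000 with
  | false => exact h
  | true =>
    have hL1000 : L ≤ 1000 := Nat.le_of_ble_eq_true hb
    have hsok := strS_spec W hs' hm T1 T2 T3 d1 d2 d3
    change In N (relQ par s.l s.F s.w2 s.mF L (strS s r1 r2 r3 L) r.a r.orb r.pi st)
    have hNZ : NeZero rd.l := ⟨hl.ne_zero⟩
    have hcast := XS_cast W hs' T1 T2 T3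
    have hperX := XS_per hs' s.RX T1 T2 T3 d1 d2 d3
    have hperY := XS_per hs' s.RY T1 T2 T3 d1 d2 d3
    have hrel := rel_hat W hs'.ok T1.ts T2.ts T3.ts _ _ rfl rfl
    have hBl := T.eq
    have hB19 : by2 (d32 r.orb (N % r.pi)) < rd.l := T.lt
    rw [hs'.l, hs'.w2, hs'.mF]
    set S := strS s r1 r2 r3 L
    set X := XS s rd s.RX a (r1.x1, r1.x2) (r2.x1, r2.x2) (r3.x1, r3.x2)
    set Y := XS s rd s.RY a (r1.x1, r1.x2) (r2.x1, r2.x2) (r3.x1, r3.x2)
    set F := s.F
    have hF32 : 32 ≤ F := hs'.F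
    have hF : 0 < F := by omega
    have h2F : 2 ^ 32 ≤ 2 ^ F := Nat.pow_le_pow_right (by norm_num) hF32
    have hl19 := hs'.l19
    have hlpos := hl.pos
    set l := rd.l
    set B := by2 (d32 r.orb (N % r.pi))
    set al := neg l (2 * r.a) with hal
    have hal19 : al < l := Nat.mod_lt _ hlpos
    have hra : r.a < l := by rw [T.la]; exact Nat.mod_lt _ hlpos
    have hsucc : Nat.succ (2 ^ F - 1) = 2 ^ F := Nat.succ_pred_eq_of_pos (by positivity)
    set k1 : ℕ := @Bool.rec (fun _ => ℕ) 0 r.a par with hk1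
    set R := prS F L S * (al + 6 * 2 ^ F) with hR
    set ka := (kk0 par l * Nat.land S (2 ^ F - 1) + k1 * Nat.land (S >>> F) (2 ^ F - 1)) % l
      with hka
    set c := Nat.land (R >>> (F + 2 * F * (L - 1))) (2 ^ F - 1) % l with hc
    have e1 : relQ par l F (2 * F) (2 ^ F - 1) L S r.a r.orb r.pi st =
        rel0 l c L (2 * F) F (2 ^ F - 1) (R + ka * (2 ^ F * rep (2 * F) L)) S (2 * r.a + l)
          r.orb r.pi st := by
      unfold relQ rel5
      rw [strict_eq]
      rw [hsucc]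
      rfl
    rw [e1]
    apply rel0_spec hl hLpos _ h
    rw [valN_eq, ← Nat.shiftRight_add]
    change (Nat.land _ (2 ^ F - 1) + N / L * c) % l = 0
    rw [land_eq']
    have hm' : N % L < L := Nat.mod_lt _ hLpos
    have hB0 : 31 * (18 * Bs) ≤ 17298 := by omega
    have hLB : L * (31 * (18 * Bs)) ≤ 1000 * 17298 := Nat.mul_le_mul hL1000 hB0
    have hka19 : ka < l := Nat.mod_lt _ hlpos
    have hbe : 2 * r.a + l - B ≤ 57 := by omega
    have hbound : (al + 6) * (L * (31 * (18 * Bs))) + (2 * r.a + l - B) * (31 * (18 * Bs)) + ka <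
        2 ^ F := by
      have t1 : (al + 6) * (L * (31 * (18 * Bs))) ≤ 25 * (1000 * 17298) :=
        Nat.mul_le_mul (by omega) hLB
      have t2 : (2 * r.a + l - B) * (31 * (18 * Bs)) ≤ 57 * 17298 := Nat.mul_le_mul hbe hB0
      have t3 : (2 : ℕ) ^ 32 = 4294967296 := by norm_num
      omega
    have hbound0 : (al + 6) * (L * (31 * (18 * Bs))) + 0 * (31 * (18 * Bs)) + 0 < 2 ^ F := by
      omega
    rw [val_eq hF hsok hbound hm']
    have hcv : c = (6 * ES X L + al * ES Y L) % l := by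
      have h1 := val_eq hF hsok hbound0 (n := L - 1) (by omega)
      rw [zero_mul, add_zero, mul_zero, add_zero, zero_mul, add_zero, add_zero,
        Nat.sub_add_cancel (by omega : 1 ≤ L)] at h1
      rw [hc, land_eq', h1]
    have hBF : 31 * (18 * Bs) < 2 ^ F := by
      have t3 : (2 : ℕ) ^ 32 = 4294967296 := by norm_num
      omega
    obtain ⟨f0, f1⟩ := fst_eq hsok hBF hLpos
    have hkav : ka = (kk0 par l * X 0 + k1 * Y 0) % l := by
      rw [hka, land_eq', land_eq', f0, f1]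
    apply Nat.mod_eq_zero_of_dvd
    rw [← ZMod.natCast_eq_zero_iff]
    have hES : ∀ (Z : ℕ → ℕ) m, ((ES Z m : ℕ) : ZMod l) = ∑ j ∈ range m, ((Z j : ℕ) : ZMod l) := by
      intro Z m
      unfold ES
      push_cast
      rfl
    have hXe : ∀ i, ((Xh rd (cof rd.n1) (cof rd.n2) (cof rd.n3) a (r1.x1, r1.x2) (r2.x1, r2.x2)
        (r3.x1, r3.x2) i : ℕ) : ZMod l) = ((X i : ℕ) : ZMod l) := fun i => (hcast i).1.symm
    have hYe : ∀ i, ((Yh rd (cof rd.n1) (cof rd.n2) (cof rd.n3) a (r1.x1, r1.x2) (r2.x1, r2.x2)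
        (r3.x1, r3.x2) i : ℕ) : ZMod l) = ((Y i : ℕ) : ZMod l) := fun i => (hcast i).2.symm
    simp only [hXe, hYe] at hrel
    have hra' : ((r.a : ℕ) : ZMod l) = (a : ZMod l) := by
      rw [T.la, ZMod.natCast_mod]
    have hal' : ((al : ℕ) : ZMod l) = ((neg l (2 * a) : ℕ) : ZMod l) := by
      rw [hal, neg_cast hlpos, neg_cast hlpos]
      push_cast
      rw [hra']
    have hal2 : ((al : ℕ) : ZMod l) = -(2 * (a : ZMod l)) := by
      rw [hal', neg_cast hlpos]
      push_cast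
      ring
    have hk1' : ((k1 : ℕ) : ZMod l) = ((kk1 par a : ℕ) : ZMod l) := by
      rw [hk1]
      cases par with
      | false => rfl
      | true => exact hra'
    have hBZ : ((B : ℕ) : ZMod l) = (((e N).2.1 : ℤ) : ZMod l) := hBl
    rw [← hal', ← hk1', ← hBZ] at hrel
    have hsp := sum_per (l := l) (L := L) (fun j => 6 * ((X j : ℕ) : ZMod l) +
      (al : ZMod l) * ((Y j : ℕ) : ZMod l)) (fun i => by simp only [hperX, hperY]) N
    rw [hsp] at hrel
    have hBle : B ≤ 2 * r.a + l := by omega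
    have hXN : ((X (N % L) : ℕ) : ZMod l) = ((X N : ℕ) : ZMod l) := by rw [hperX]
    have hYN : ((Y (N % L) : ℕ) : ZMod l) = ((Y N : ℕ) : ZMod l) := by rw [hperY]
    rw [hcv, hkav]
    push_cast
    rw [ZMod.natCast_mod, ZMod.natCast_mod]
    push_cast
    rw [Nat.cast_sub hBle, hES, hES, hES, hES, Finset.sum_range_succ, Finset.sum_range_succ,
      hXN, hYN]
    push_cast
    rw [ZMod.natCast_self, hra']
    rw [Finset.sum_add_distrib, Finset.sum_add_distrib, ← Finset.mul_sum, ← Finset.mul_sum,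
      ← Finset.mul_sum, ← Finset.mul_sum] at hrel
    linear_combination hrel + ((Y N : ℕ) : ZMod l) * hal2

end

end Pool.Agent.CXS
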