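import Pool.Agent.CXS.StD
import Pool.Agent.RQM.C68
import Pool.Agent.RQM.C69

/-!
Constant words, odd period length divisible by `13`: soundness of the kernel functions.
-/

set_option autoImplicit false

namespace Pool.Agent.CXS

open Pool.Agent.LibH4.Ker Pool.Agent.Lib_helper5.TB Pool.Agent.LibH4.CW Pool.Agent.LibH4.CX
open Pool.Agent.LibH4

/-! ### soundness -/

variable {a N : ℕ} {e : ℕ → ℤ × ℤ × ℤ}

lemma eqL_spec (W : World false a e N) {r : Rc} {p : ℕ} [NeZero p] (T : RT false a e p r)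
    {n K s : ℕ} (hN : N = n + K * s) (h : eqL r n K = true) :
    (((e N).2.1 : ℤ) : ZMod p) = ((a : ℤ) : ZMod p) := by
  unfold eqL at h
  cases hb : Nat.beq (Nat.mod K r.pi) (nat_lit 0) with
  | false => rw [hb] at h; exact absurd h (by simp)
  | true =>
    rw [hb] at h
    have h0 : K % r.pi = 0 := Nat.eq_of_beq_eq_true hb
    have h1 : by2 (d32 r.orb (n % r.pi)) = r.a := Nat.eq_of_beq_eq_true h
    obtain ⟨k, hk⟩ := Nat.dvd_of_mod_eq_zero h0
    have hn : n % r.pi = N % r.pi := by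
      rw [hN, hk, mul_assoc, Nat.add_mul_mod_self_left]
    rw [hn, T.e2 N, T.la] at h1
    have h2 := (T.ts.last W T.ok).1
    rw [T.cn] at h2
    rw [← h2, h1, ZMod.natCast_mod]
    push_cast
    rfl

lemma nst_spec (W : World false a e N) {r13 r7 r5 : Rc}
    (T13 : RT false a e 13 r13) (T7 : RT false a e 7 r7) (T5 : RT false a e 5 r5)
    (hne : ¬ ((((e N).2.1 : ℤ) : ZMod 13) = ((a : ℤ) : ZMod 13) ∧
      (((e N).2.1 : ℤ) : ZMod 7) = ((a : ℤ) : ZMod 7) ∧
      (((e N).2.1 : ℤ) : ZMod 5) = ((a : ℤ) : ZMod 5)))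
    (n K s : ℕ) (_ : 0 < K) (hN : N = n + K * s) : nst r13 r7 r5 n K = true := by
  unfold nst
  cases h5 : eqL r5 n K with
  | false => rfl
  | true =>
    cases h7 : eqL r7 n K with
    | false => rfl
    | true =>
      cases h13 : eqL r13 n K with
      | false => rfl
      | true =>
        exact absurd ⟨eqL_spec W T13 hN h13, eqL_spec W T7 hN h7, eqL_spec W T5 hN h5⟩ hne

theorem stS3_spec (W : World false a e N)
    {r17 r13 r7 r5 r8 r4 : Rc}
    (T17 : RT false a e 17 r17) (T13 : RT false a e 13 r13) (T7 : RT false a e 7 r7)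
    (T5 : RT false a e 5 r5) (T8 : RT false a e 8 r8) (T4 : RT false a e 4 r4)
    (m : (r8, r4) ∈ F84o) {s0 : Tr} (i0 : In N s0) (h : stS3 r17 r13 r7 r5 s0 = true) :
    False := by
  have h := allL_mem h (r8, r4) m
  have i1 := q_364F13a W T13 T7 T4 T13 i0
  have h := ne_spec h i1
  generalize relX false n364F13a r13 r7 r4 r13 s0 = s1 at h i1
  have i2 := q_728F13 W T13 T7 T8 T13 i1
  have h := ne_spec h i2
  generalize relX false n728F13 r13 r7 r8 r13 s1 = s2 at h i2
  exact nilT_spec h (q_680N13 W T17 T5 T8 T13 i2)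

theorem stS2_spec (W : World false a e N)
    {r17 r13 r7 r5 r8 r4 : Rc} (T1 : RT false a e 1 r1o_0)
    (T17 : RT false a e 17 r17) (m17 : r17 ∈ F17o) (T13 : RT false a e 13 r13)
    (T7 : RT false a e 7 r7)
    (T5 : RT false a e 5 r5) (T8 : RT false a e 8 r8) (T4 : RT false a e 4 r4)
    (m : (r8, r4) ∈ F84o) {s0 : Tr} (i0 : In N s0) (h : stS2 r13 r7 r5 s0 = true) :
    False := by
  have h := ne_spec h i0
  have h := allL_mem h r17 m17
  have i1 := q_119N13 W T17 T7 T1 T13 i0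
  have h := ne_spec h i1
  generalize relX false n119N13 r17 r7 r1o_0 r13 s0 = s1 at h i1
  have i2 := q_119N5 W T17 T7 T1 T5 i1
  have h := ne_spec h i2
  generalize relX false n119N5 r17 r7 r1o_0 r5 s1 = s2 at h i2
  have i3 := q_221N5 W T17 T13 T1 T5 i2
  have h := ne_spec h i3
  generalize relX false n221N5 r17 r13 r1o_0 r5 s2 = s3 at h i3
  have i4 := q_595N13a W T17 T7 T5 T13 i3
  have h := ne_spec h i4
  generalize relX false n595N13a r17 r7 r5 r13 s3 = s4 at h i4
  have i5 := q_595N13b W T17 T7 T5 T13 i4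
  have h := ne_spec h i5
  generalize relX false n595N13b r17 r7 r5 r13 s4 = s5 at h i5
  exact stS3_spec W T17 T13 T7 T5 T8 T4 m i5 h

lemma in_start13 (h : N % 13 = 6) : In N (Tr.st (nat_lit 6) (nat_lit 13) Tr.nil) :=
  Or.inl ⟨by norm_num, N / 13, by change N = 6 + 13 * (N / 13); omega⟩

theorem stS_spec (W : World false a e N) (h13 : N % 13 = 6)
    (hne : ¬ ((((e N).2.1 : ℤ) : ZMod 13) = ((a : ℤ) : ZMod 13) ∧
      (((e N).2.1 : ℤ) : ZMod 7) = ((a : ℤ) : ZMod 7) ∧
      (((e N).2.1 : ℤ) : ZMod 5) = ((a : ℤ) : ZMod 5)))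
    {r17 r13 r7 r5 r8 r4 : Rc} (T1 : RT false a e 1 r1o_0)
    (T17 : RT false a e 17 r17) (m17 : r17 ∈ F17o) (T13 : RT false a e 13 r13)
    (T7 : RT false a e 7 r7) (m7 : r7 ∈ F7o)
    (T5 : RT false a e 5 r5) (m5 : r5 ∈ F5o) (T8 : RT false a e 8 r8) (T4 : RT false a e 4 r4)
    (m : (r8, r4) ∈ F84o) (h : stS r13 = true) : False := by
  unfold stS at h
  have i0 := lft_spec T13.pi (in_start13 h13)
  generalize lft r13.pi (Tr.st (nat_lit 6) (nat_lit 13) Tr.nil) = s0 at h i0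
  have h := allL_mem h r7 m7
  have i1 := q_91F13 W T13 T7 T1 T13 i0
  have h := ne_spec h i1
  generalize relX false n91F13 r13 r7 r1o_0 r13 s0 = s1 at h i1
  have h := allL_mem h r5 m5
  have i2 := q_455F13a W T13 T7 T5 T13 i1
  have h := ne_spec h i2
  generalize relX false n455F13a r13 r7 r5 r13 s1 = s2 at h i2
  have i3 := q_455F13b W T13 T7 T5 T13 i2
  have h := ne_spec h i3
  generalize relX false n455F13b r13 r7 r5 r13 s2 = s3 at h i3
  have i4 := q_455F13c W T13 T7 T5 T13 i3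
  have h := ne_spec h i4
  generalize relX false n455F13c r13 r7 r5 r13 s3 = s4 at h i4
  have i5 := q_455F13d W T13 T7 T5 T13 i4
  exact stS2_spec W T1 T17 m17 T13 T7 T5 T8 T4 m (filT_spec (nst_spec W T13 T7 T5 hne) i5) h

end Pool.Agent.CXS
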