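import Pool.Agent.CXS.Kd
import Pool.Agent.CXS.RelP
import Pool.Agent.CXS.St
import Pool.Agent.CXS.Fin

/-!
Constant words, odd period length divisible by `13`: the last letter modulo `3` and `17`, soundness.
-/

set_option autoImplicit false

namespace Pool.Agent.CXS

open Pool.Agent.LibH4.Ker Pool.Agent.Lib_helper5.TB Pool.Agent.LibH4.CW Pool.Agent.LibH4.CX
open Pool.Agent.LibH4

lemma rk3o : recCk false (cof 3) F3o = true := by decide +kernel

variable {a N : ℕ} {e : ℕ → ℤ × ℤ × ℤ}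

lemma ex3o (W : World false a e N) : ∃ r ∈ F3o, RT false a e 3 r :=
  rec_spec (n := 3) W ok3 rfl rk3o

lemma fN_spec (W : World false a e N) {r : Rc} {p : ℕ} [NeZero p] (T : RT false a e p r)
    (hne : ¬ ((((e N).2.1 : ℤ) : ZMod p) = ((a : ℤ) : ZMod p))) {s : Tr} (h : In N s) :
    In N (fN r s) := by
  unfold fN
  apply filT_spec _ (lft_spec T.pi h)
  intro n K t _ hN
  unfold neqL
  cases hb : eqL r n K with
  | false => rfl
  | true => exact absurd (eqL_spec W T hN hb) hne

lemma fE_spec (W : World false a e N) {r : Rc} {p : ℕ} [NeZero p] (T : RT false a e p r)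
    (heq : (((e N).2.1 : ℤ) : ZMod p) = ((a : ℤ) : ZMod p)) {s : Tr} (h : In N s) :
    In N (fE r s) := by
  unfold fE
  apply filT_spec _ (lft_spec T.pi h)
  intro n K t _ hN
  unfold equL
  cases hb : Nat.beq (Nat.mod K r.pi) (nat_lit 0) with
  | false => rfl
  | true =>
    change Nat.beq (by2 (d32 r.orb (Nat.mod n r.pi))) r.a = true
    have h0 : K % r.pi = 0 := Nat.eq_of_beq_eq_true hb
    obtain ⟨k, hk⟩ := Nat.dvd_of_mod_eq_zero h0
    have hn : n % r.pi = N % r.pi := by
      rw [hN, hk, mul_assoc, Nat.add_mul_mod_self_left]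
    have R := RB.of W T
    have h1 : by2 (d32 r.orb (N % r.pi)) = a % p := by
      have h2 := R.eq
      rw [heq] at h2
      have h3 : ((by2 (d32 r.orb (N % r.pi)) : ℕ) : ZMod p) = ((a : ℕ) : ZMod p) := by
        rw [h2]; push_cast; rfl
      have h4 := (ZMod.natCast_eq_natCast_iff' _ _ p).1 h3
      rwa [Nat.mod_eq_of_lt R.lt] at h4
    have h5 : by2 (d32 r.orb (Nat.mod n r.pi)) = r.a := by
      rw [T.la]
      change by2 (d32 r.orb (n % r.pi)) = a % p
      rw [hn, h1]
    rw [h5]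
    exact Nat.beq_refl _

/-- the last letter modulo `p` -/
def Eqv (a : ℕ) (e : ℕ → ℤ × ℤ × ℤ) (N p : ℕ) : Prop :=
  (((e N).2.1 : ℤ) : ZMod p) = ((a : ℤ) : ZMod p)

theorem s3_spec (W : World false a e N) (h13 : N % 13 = 6) (E13 : Eqv a e N 13)
    (E7 : Eqv a e N 7) (E5 : Eqv a e N 5) (hne : ¬ Eqv a e N 3) {v r3 : Rc}
    (V : RB a e N 13 v) (T3 : RT false a e 3 r3) (h : s3 v r3 = true) : False := by
  obtain ⟨r1, m1, T1⟩ := ex1o W
  have e1 : r1 = r1o_0 := by
    unfold F1o at m1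
    simpa using m1
  subst e1
  obtain ⟨r5, m5, T5⟩ := ex5o W
  obtain ⟨r7, m7, T7⟩ := ex7o W
  obtain ⟨r13, m13, T13⟩ := ex13o W
  obtain ⟨r17, m17, T17⟩ := ex17o W
  unfold s3 at h
  have i0 := fN_spec W T3 hne (show In N t13 from in_start13 h13)
  generalize fN r3 t13 = s0 at h i0
  have h := allL_mem (ne_spec h i0) r5 m5
  have i1 := fE_spec W T5 E5 i0
  generalize fE r5 s0 = s1 at h i1
  have h := allL_mem (ne_spec h i1) r7 m7
  have i2 := fE_spec W T7 E7 i1
  generalize fE r7 s1 = s2 at h i2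
  have h := ne_spec h i2
  have i3 := p_105N13 W T7 T5 T3 V i2
  generalize relX false n105N13 r7 r5 r3 v s2 = s3 at h i3
  have h := allL_mem (ne_spec h i3) r13 m13
  have ea : Nat.beq r13.a v.a = true := by
    rw [V.la, T13.la]; exact Nat.beq_refl _
  rw [ea] at h
  have i4 := fE_spec W T13 E13 i3
  generalize fE r13 s3 = s4 at h i4
  have h := ne_spec h i4
  have i5 := p_195F13 W T13 T5 T3 (RB.of W T13) i4
  generalize relX false n195F13 r13 r5 r3 r13 s4 = s5 at h i5
  have h := ne_spec h i5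
  have i6 := p_273F13 W T13 T7 T3 (RB.of W T13) i5
  generalize relX false n273F13 r13 r7 r3 r13 s5 = s6 at h i6
  have h := allL_mem (ne_spec h i6) r17 m17
  have i7 := p_357N13 W T17 T7 T3 V i6
  generalize relX false n357N13 r17 r7 r3 v s6 = s7 at h i7
  have h := ne_spec h i7
  have i8 := p_119N13 W T17 T7 T1 V i7
  generalize relX false n119N13 r17 r7 r1o_0 v s7 = s8 at h i8
  have h := ne_spec h i8
  have i9 := p_595N13a W T17 T7 T5 V i8
  generalize relX false n595N13a r17 r7 r5 v s8 = s9 at h i9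
  have h := ne_spec h i9
  have i10 := p_595N13b W T17 T7 T5 V i9
  generalize relX false n595N13b r17 r7 r5 v s9 = s10 at h i10
  exact nilT_spec (ne_spec h i10) (p_663F13 W T17 T13 T3 (RB.of W T13) i10)

theorem s17_spec (W : World false a e N) (h13 : N % 13 = 6)
    (E7 : Eqv a e N 7) (E5 : Eqv a e N 5) (E3 : Eqv a e N 3) (hne : ¬ Eqv a e N 17) {v r17 : Rc}
    (V : RB a e N 13 v) (T17 : RT false a e 17 r17) (h : s17 v r17 = true) : False := by
  obtain ⟨r1, m1, T1⟩ := ex1o W
  have e1 : r1 = r1o_0 := by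
    unfold F1o at m1
    simpa using m1
  subst e1
  obtain ⟨r5, m5, T5⟩ := ex5o W
  obtain ⟨r7, m7, T7⟩ := ex7o W
  obtain ⟨r3, m3, T3⟩ := ex3o W
  unfold s17 at h
  have i0 := fN_spec W T17 hne (show In N t13 from in_start13 h13)
  generalize fN r17 t13 = s0 at h i0
  have h := allL_mem (ne_spec h i0) r7 m7
  have i1 := fE_spec W T7 E7 i0
  generalize fE r7 s0 = s1 at h i1
  have h := ne_spec h i1
  have i2 := p_119N13 W T17 T7 T1 V i1
  generalize relX false n119N13 r17 r7 r1o_0 v s1 = s2 at h i2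
  have h := allL_mem (ne_spec h i2) r5 m5
  have i3 := fE_spec W T5 E5 i2
  generalize fE r5 s2 = s3 at h i3
  have h := ne_spec h i3
  have i4 := p_595N13a W T17 T7 T5 V i3
  generalize relX false n595N13a r17 r7 r5 v s3 = s4 at h i4
  have h := ne_spec h i4
  have i5 := p_595N13b W T17 T7 T5 V i4
  generalize relX false n595N13b r17 r7 r5 v s4 = s5 at h i5
  have h := allL_mem (ne_spec h i5) r3 m3
  have i6 := fE_spec W T3 E3 i5
  generalize fE r3 s5 = s6 at h i6
  exact nilT_spec (ne_spec h i6) (p_357N13 W T17 T7 T3 V i6)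

end Pool.Agent.CXS
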